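import Mathlib

/-!
Packing families of balanced trees into complete bipartite graphs: definitions.
-/

set_option autoImplicit false

namespace Pool.Agent.MP_4c107d_co

/-- `T` is a tree whose two classes are the two copies of `Fin n`. -/
def IsBalancedTree (n : ℕ) (T : SimpleGraph (Fin n ⊕ Fin n)) : Prop :=
  T.IsTree ∧ T ≤ completeBipartiteGraph (Fin n) (Fin n)

/-- The family `G i` packs into `H`: injective vertex maps sending edges to edges of `H`,
with pairwise disjoint image edge sets. -/
def PacksInto {ι V W : Type} (G : ι → SimpleGraph V) (H : SimpleGraph W) : Prop :=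
  ∃ φ : ι → (V ↪ W), (∀ i u v, (G i).Adj u v → H.Adj (φ i u) (φ i v)) ∧
    ∀ i j, i ≠ j → Disjoint (Sym2.map (φ i) '' (G i).edgeSet) (Sym2.map (φ j) '' (G j).edgeSet)

/-- The statement `P(n,k)`: every family of `k` trees with `n` vertices in each class packs into
`K_{2n-1,k}`. -/
def P (n k : ℕ) : Prop :=
  ∀ T : Fin k → SimpleGraph (Fin n ⊕ Fin n), (∀ i, IsBalancedTree n (T i)) →
    PacksInto T (completeBipartiteGraph (Fin (2 * n - 1)) (Fin k))

end Pool.Agent.MP_4c107d_co
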